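import Pool.Agent.PSS.P_CLQ
import Pool.Agent.PSS.P_VAL
import Pool.Agent.PSS.P_FIB
import Pool.Agent.PSS.P_PRM
import Pool.Agent.PSS.P_ONE
import Pool.Agent.PSS.P_ROL
import Pool.Agent.PSS.P_CHB
import Pool.Agent.PSS.P_NZ
import Pool.Agent.PSS.P_TAY
import Pool.Agent.PSS.P_DET
import Pool.Agent.PSS.P_TWO

set_option autoImplicit false

/-!
# MP_a81a37_nt: large pairwise-sum-square sets of squares

`A` is a finite set of positive integers such that `a ^ 2 + b ^ 2` is a perfect square for any two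
different elements `a`, `b` of `A`.
-/

namespace Pool.Agent.Results.MP_a81a37_nt.LargeSets

/-- (1) A set of `k ≥ 2` elements has all its elements `≥ exp (k ^ 2 / C)`. (2) For every `r ≥ 1`:
if `r` elements of the set are at most `m`, then fewer than `r` elements of the set exceed
`C_r * m ^ (1 + 1 / r)`. -/
theorem result :
    (∃ C : ℝ, 0 < C ∧ ∀ A : Finset ℕ, (∀ a ∈ A, 0 < a) →
      (∀ a ∈ A, ∀ b ∈ A, a ≠ b → IsSquare (a ^ 2 + b ^ 2)) → 2 ≤ A.card →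
      ∀ a ∈ A, (A.card : ℝ) ^ 2 ≤ C * Real.log (a : ℝ)) ∧
    (∀ r : ℕ, 1 ≤ r → ∃ C : ℝ, 0 < C ∧ ∀ (A R : Finset ℕ) (m : ℕ), (∀ a ∈ A, 0 < a) →
      (∀ a ∈ A, ∀ b ∈ A, a ≠ b → IsSquare (a ^ 2 + b ^ 2)) → R ⊆ A → R.card = r →
      (∀ a ∈ R, a ≤ m) →
      (A.filter (fun d : ℕ => C * (m : ℝ) ^ (1 + 1 / (r : ℝ)) < (d : ℝ))).card < r) := by
  have hVAL := PSS.p_VAL PSS.p_CLQ
  have hCHB := PSS.p_CHB PSS.p_ROL
  have h1 := PSS.p_ONE hVAL PSS.p_FIB PSS.p_PRM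
  have h2 := PSS.p_TWO (PSS.p_NZ PSS.p_ROL hCHB) (PSS.p_DET PSS.p_TAY)
  refine ⟨?_, fun r hr => ?_⟩
  · obtain ⟨C, hC, h⟩ := h1
    exact ⟨C, hC, fun A hA hA' hc a ha => h A ⟨hA, hA'⟩ hc a ha⟩
  · obtain ⟨C, hC, h⟩ := h2 r hr
    exact ⟨C, hC, fun A R m hA hA' hR hRr hm => h A R m ⟨hA, hA'⟩ hR hRr hm⟩

end Pool.Agent.Results.MP_a81a37_nt.LargeSets
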