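import Pool.Agent.FSQ.VAN
import Pool.Agent.FSQ.MOM
import Pool.Agent.FSQ.STB
import Pool.Agent.FSQ.ORB
import Pool.Agent.FSQ.CHS
import Pool.Agent.FSQ.SQC
import Pool.Agent.FSQ.LSV
import Pool.Agent.FSQ.MRT
import Pool.Agent.FSQ.BOX
import Pool.Agent.FSQ.HYP
import Pool.Agent.FSQ.PYT
import Pool.Agent.FSQ.PAR
import Pool.Agent.FSQ.QRT
import Pool.Agent.FSQ.SUM
import Pool.Agent.FSQ.CNT
import Pool.Agent.FSQ.TRI
import Pool.Agent.FSQ.DVS
import Pool.Agent.FSQ.QAD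
import Pool.Agent.FSQ.ASY

set_option autoImplicit false

/-!
# MP_a81a37_nt: the number of quadruples of squares with square pairwise sums

`Quad a b c d`: positive integers, the sum of the squares of any two of them is a square;
`quadSet N`: the primitive ones (gcd one) with entries at most `N`; `quadAll N`: all of them with
entries at most `N`.
-/

namespace Pool.Agent.Results.MP_a81a37_nt.QuadrupleCount

open Pool.Agent.FSQ

/-- The primitive quadruples with entries up to `N` number at most `C N ^ (9 / 10 + ε)`, all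
quadruples with entries up to `N` number `κ N + O (N ^ (9 / 10 + ε))`, and a quadruple exists if
and only if `κ > 0`. -/
theorem result : ∃ κ : ℝ, 0 ≤ κ ∧ (κ = 0 ↔ ¬ ∃ a b c d : ℕ, Quad a b c d) ∧
    ∀ ε : ℝ, 0 < ε → ∃ C : ℝ, ∀ N : ℕ, 1 ≤ N →
      (((quadSet N).ncard : ℕ) : ℝ) ≤ C * (N : ℝ) ^ ((9 : ℝ) / 10 + ε) ∧
      |(((quadAll N).ncard : ℕ) : ℝ) - κ * N| ≤ C * (N : ℝ) ^ ((9 : ℝ) / 10 + ε) := by
  have hSQC := p_SQC (p_CHS (p_MOM p_VAN) (p_ORB p_STB))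
  have hHYP := p_HYP (p_BOX hSQC p_LSV p_MRT)
  have hCNT := p_CNT hHYP p_QRT p_SUM
  have hTRI := p_TRI (p_PAR p_PYT) hCNT
  have hQAD := p_QAD hTRI p_DVS
  obtain ⟨κ, h0, h1, h2⟩ := p_ASY hQAD
  refine ⟨κ, h0, h1, fun ε hε => ?_⟩
  obtain ⟨C₁, hC₁, h3⟩ := hQAD ε hε
  obtain ⟨C₂, hC₂, h4⟩ := h2 ε hε
  refine ⟨max C₁ C₂, fun N hN => ⟨(h3 N hN).trans ?_, (h4 N hN).trans ?_⟩⟩
  · exact mul_le_mul_of_nonneg_right (le_max_left _ _) (by positivity)
  · exact mul_le_mul_of_nonneg_right (le_max_right _ _) (by positivity)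

end Pool.Agent.Results.MP_a81a37_nt.QuadrupleCount
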