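import Pool.Agent.FSQ.VAN
import Pool.Agent.FSQ.MOM
import Pool.Agent.FSQ.STB
import Pool.Agent.FSQ.ORB
import Pool.Agent.FSQ.CHS
import Pool.Agent.FSQ.SQC
import Pool.Agent.FSQ.LSV
import Pool.Agent.FSQ.MRT
import Pool.Agent.FSQ.BOX
import Pool.Agent.FSQ.HYP
import Pool.Agent.FSQ.PYT
import Pool.Agent.FSQ.PAR
import Pool.Agent.FSQ.QRT
import Pool.Agent.FSQ.SUM
import Pool.Agent.FSQ.CNT
import Pool.Agent.FSQ.TRI

set_option autoImplicit false

/-!
# MP_a81a37_nt: the number of primitive triples of squares with square pairwise sums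

`Tri a b c`: positive integers, the sum of the squares of any two of them is a square;
`triSet N`: the primitive ones (gcd one) with entries at most `N`.
-/

namespace Pool.Agent.Results.MP_a81a37_nt.TripleCount

open Pool.Agent.FSQ

/-- The primitive triples with entries up to `N` number at most `C N ^ (7 / 8 + ε)`. -/
theorem result : ∀ ε : ℝ, 0 < ε → ∃ C : ℝ, ∀ N : ℕ, 1 ≤ N →
    (((triSet N).ncard : ℕ) : ℝ) ≤ C * (N : ℝ) ^ ((7 : ℝ) / 8 + ε) := by
  have hSQC := p_SQC (p_CHS (p_MOM p_VAN) (p_ORB p_STB))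
  have hHYP := p_HYP (p_BOX hSQC p_LSV p_MRT)
  have hCNT := p_CNT hHYP p_QRT p_SUM
  have hTRI := p_TRI (p_PAR p_PYT) hCNT
  intro ε hε
  obtain ⟨C, hC, h⟩ := hTRI ε hε
  refine ⟨C, fun N hN => ?_⟩
  have hN0 : (0 : ℝ) < N := by exact_mod_cast hN
  have he : triSetE N 1 = triSet N := by
    ext ⟨a, b, c⟩
    constructor
    · exact fun h => h.1
    · intro h
      obtain ⟨ha, hb, hc, _⟩ := h.1
      exact ⟨h, Nat.gcd_pos_of_pos_left _ ha, Nat.gcd_pos_of_pos_left _ ha,
        Nat.gcd_pos_of_pos_left _ hb⟩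
  have h1 := h N 1 hN le_rfl
  rw [he] at h1
  refine h1.trans ?_
  rw [Real.rpow_add hN0, mul_assoc, mul_comm ((N : ℝ) ^ ((7 : ℝ) / 8))]
  exact mul_le_mul_of_nonneg_left (mul_le_mul_of_nonneg_left (min_le_left _ _) (by positivity))
    hC.le

end Pool.Agent.Results.MP_a81a37_nt.TripleCount
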